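import Pool.Agent.Lib.MP_4fec65_co.Join

set_option autoImplicit false
set_option linter.unusedSectionVars false

/-!
# The graph of the join is `2(m+1)`-connected
-/

namespace Pool.Agent.Lib.MP_4fec65_co

open Finset

variable {n m : ℕ} [NeZero n]

theorem isKConnected_cplx (hn : 3 ≤ n) : IsKConnected (2 * (m + 1)) (graph (cplx n m)) := by
  classical
  refine ⟨by rw [card_Vx]; omega, ?_⟩
  intro X hX
  rw [SimpleGraph.connected_iff_exists_forall_reachable]
  have hXc : (X.toLeft).card + (X.toRight).card = X.card := Finset.card_toLeft_add_card_toRight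
  by_cases hA : ∃ a : ZMod (2 * n), (Sum.inl a : Vx n m) ∉ X
  · obtain ⟨a, ha⟩ := hA
    by_cases hB : ∃ y : Fin m × Bool, (Sum.inr y : Vx n m) ∉ X
    · obtain ⟨y, hy⟩ := hB
      refine ⟨⟨Sum.inl a, ha⟩, ?_⟩
      have hay : ((graph (cplx n m)).induce {v | v ∉ X}).Adj ⟨Sum.inl a, ha⟩ ⟨Sum.inr y, hy⟩ :=
        adj_inl_inr a y
      rintro ⟨w, hw⟩
      rcases w with a' | y'
      · have h1 : ((graph (cplx n m)).induce {v | v ∉ X}).Adj ⟨Sum.inl a', hw⟩ ⟨Sum.inr y, hy⟩ :=
          adj_inl_inr a' y
        exact hay.reachable.trans h1.symm.reachable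
      · have h1 : ((graph (cplx n m)).induce {v | v ∉ X}).Adj ⟨Sum.inl a, ha⟩ ⟨Sum.inr y', hw⟩ :=
          adj_inl_inr a y'
        exact h1.reachable
    · -- all sign vertices are deleted
      push Not at hB
      have hR : X.toRight = Finset.univ := by
        ext y
        simp [hB y]
      have hRc : X.toRight.card = 2 * m := by
        rw [hR, Finset.card_univ, Fintype.card_prod, Fintype.card_fin, Fintype.card_bool]
        ring
      have hLc : X.toLeft.card ≤ 1 := by omega
      obtain ⟨x₀, hx₀⟩ : ∃ x₀ : ZMod (2 * n), ∀ a, (Sum.inl a : Vx n m) ∈ X → a = x₀ := by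
        rw [Finset.card_le_one_iff] at hLc
        by_cases h : ∃ b, (Sum.inl b : Vx n m) ∈ X
        · obtain ⟨b, hb⟩ := h
          refine ⟨b, fun a ha => ?_⟩
          exact hLc (by simpa using ha) (by simpa using hb)
        · push Not at h
          exact ⟨0, fun a ha => absurd ha (h a)⟩
      have hbase : (Sum.inl (x₀ + 1) : Vx n m) ∉ X := by
        intro h
        have := hx₀ _ h
        apply one_ne (n := n) (by omega)
        linear_combination this
      refine ⟨⟨Sum.inl (x₀ + 1), hbase⟩, ?_⟩
      -- walk along the cycle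
      have hne : ∀ t : ℕ, t < 2 * n - 1 → (x₀ + 1 + (t : ZMod (2 * n))) ≠ x₀ := by
        intro t ht h
        have h1 : ((t + 1 : ℕ) : ZMod (2 * n)) = 0 := by
          push_cast
          linear_combination h
        rw [ZMod.natCast_eq_zero_iff] at h1
        have := Nat.le_of_dvd (by omega) h1
        omega
      have hmem : ∀ t : ℕ, t < 2 * n - 1 →
          (Sum.inl (x₀ + 1 + (t : ZMod (2 * n))) : Vx n m) ∉ X := by
        intro t ht h
        exact hne t ht (hx₀ _ h)
      have hwalk : ∀ (t : ℕ) (ht : t < 2 * n - 1),
          ((graph (cplx n m)).induce {v | v ∉ X}).Reachable ⟨Sum.inl (x₀ + 1), hbase⟩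
            ⟨Sum.inl (x₀ + 1 + (t : ZMod (2 * n))), hmem t ht⟩ := by
        intro t
        induction t with
        | zero =>
          intro ht
          have : (⟨Sum.inl (x₀ + 1 + ((0 : ℕ) : ZMod (2 * n))), hmem 0 ht⟩ :
              {v : Vx n m | v ∉ X}) = ⟨Sum.inl (x₀ + 1), hbase⟩ := by
            apply Subtype.ext
            simp
          rw [this]
        | succ t ih =>
          intro ht
          refine (ih (by omega)).trans (SimpleGraph.Adj.reachable ?_)
          refine (adj_inl_inl _ _).2 ⟨?_, ?_⟩
          · intro h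
            apply one_ne (n := n) (by omega)
            push_cast at h
            linear_combination -h
          · left
            push_cast
            ring
      rintro ⟨w, hw⟩
      rcases w with a' | y'
      · by_cases ha' : a' = x₀
        · apply SimpleGraph.Adj.reachable
          refine (adj_inl_inl _ _).2 ⟨?_, Or.inr (by rw [ha'])⟩
          intro h
          apply one_ne (n := n) (by omega)
          rw [ha'] at h
          linear_combination h
        · have ht : (a' - x₀ - 1).val < 2 * n - 1 := by
            have h1 : (a' - x₀ - 1).val < 2 * n := ZMod.val_lt _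
            by_contra hcon
            have h2 : (a' - x₀ - 1).val = 2 * n - 1 := by omega
            apply ha'
            have h3 : (((a' - x₀ - 1).val : ℕ) : ZMod (2 * n)) = a' - x₀ - 1 :=
              ZMod.natCast_zmod_val _
            rw [h2, Nat.cast_sub (by omega), ZMod.natCast_self] at h3
            push_cast at h3
            linear_combination -h3
          have := hwalk _ ht
          have he : (⟨Sum.inl (x₀ + 1 + (((a' - x₀ - 1).val : ℕ) : ZMod (2 * n))), hmem _ ht⟩ :
              {v : Vx n m | v ∉ X}) = ⟨Sum.inl a', hw⟩ := by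
            apply Subtype.ext
            show (Sum.inl (x₀ + 1 + (((a' - x₀ - 1).val : ℕ) : ZMod (2 * n))) : Vx n m)
              = Sum.inl a'
            rw [ZMod.natCast_zmod_val]
            congr 1
            ring
          rw [he] at this
          exact this
      · exact absurd (hB y') hw
  · -- all cycle vertices are deleted
    push Not at hA
    have hL : X.toLeft = Finset.univ := by
      ext a
      simp [hA a]
    have hLc : X.toLeft.card = 2 * n := by
      rw [hL, Finset.card_univ, ZMod.card]
    have hRc : X.toRight.card + 5 ≤ 2 * m := by omega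
    have hcompl : 5 ≤ (X.toRight)ᶜ.card := by
      rw [Finset.card_compl, Fintype.card_prod, Fintype.card_fin, Fintype.card_bool]
      omega
    have hthird : ∀ u v : Fin m × Bool, ∃ w : Fin m × Bool, (Sum.inr w : Vx n m) ∉ X ∧
        w.1 ≠ u.1 ∧ w.1 ≠ v.1 := by
      intro u v
      by_contra hcon
      push Not at hcon
      have hsub : (X.toRight)ᶜ ⊆ {(u.1, true), (u.1, false), (v.1, true), (v.1, false)} := by
        rintro ⟨j, b⟩ hw
        rw [Finset.mem_compl, Finset.mem_toRight] at hw
        have := hcon (j, b) hw
        simp only [Finset.mem_insert, Finset.mem_singleton, Prod.mk.injEq]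
        by_cases h1 : j = u.1
        · cases b <;> simp [h1]
        · have h2 := this h1
          simp only at h2
          cases b <;> simp [h2]
      have h4 := Finset.card_le_card hsub
      have h5 : ({(u.1, true), (u.1, false), (v.1, true), (v.1, false)} :
          Finset (Fin m × Bool)).card ≤ 4 := Finset.card_le_four
      omega
    have hne : ∃ u : Fin m × Bool, (Sum.inr u : Vx n m) ∉ X := by
      have h1 : (X.toRight)ᶜ.Nonempty := by
        rw [← Finset.card_pos]; omega
      obtain ⟨u, hu⟩ := h1
      rw [Finset.mem_compl, Finset.mem_toRight] at hu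
      exact ⟨u, hu⟩
    obtain ⟨u, hu⟩ := hne
    refine ⟨⟨Sum.inr u, hu⟩, ?_⟩
    rintro ⟨v, hv⟩
    rcases v with a | v
    · exact absurd (hA a) hv
    · obtain ⟨w, hw, hwu, hwv⟩ := hthird u v
      have h1 : ((graph (cplx n m)).induce {v | v ∉ X}).Adj ⟨Sum.inr u, hu⟩ ⟨Sum.inr w, hw⟩ :=
        adj_inr_inr u w (Ne.symm hwu)
      have h2 : ((graph (cplx n m)).induce {v | v ∉ X}).Adj ⟨Sum.inr w, hw⟩ ⟨Sum.inr v, hv⟩ :=
        adj_inr_inr w v hwv
      exact h1.reachable.trans h2.reachable

end Pool.Agent.Lib.MP_4fec65_co
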