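import Mathlib

set_option autoImplicit false

/-!
# Symmetric simplicial circuits and symmetric rigidity: definitions

`V` is a finite type which plays the role of the vertex set of the complex (this is recorded in
the field `spans` of `IsCircuit`).  A complex is a finite set `S` of finite subsets (facets).
-/

namespace Pool.Agent.Lib.MP_4fec65_co

section Complex

variable {V : Type} [Fintype V] [DecidableEq V]

/-- The boundary of `S`: the `k`-element sets lying in an odd number of facets. -/
def boundary (k : ℕ) (S : Finset (Finset V)) : Finset (Finset V) :=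
  (Finset.univ.powersetCard k).filter (fun T => Odd (S.filter (fun F => T ⊆ F)).card)

/-- `S` is a simplicial `k`-circuit with vertex set `V`. -/
structure IsCircuit (k : ℕ) (S : Finset (Finset V)) : Prop where
  nonempty : S.Nonempty
  card_facet : ∀ F ∈ S, F.card = k + 1
  spans : ∀ v : V, ∃ F ∈ S, v ∈ F
  boundary_eq : boundary k S = ∅
  minimal : ∀ T : Finset (Finset V), T ⊂ S → T.Nonempty → boundary k T ≠ ∅

/-- `σ` is a free simplicial involution of the complex `S`. -/
structure IsFreeInvolution (S : Finset (Finset V)) (σ : V → V) : Prop where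
  involutive : ∀ v, σ (σ v) = v
  maps : ∀ F ∈ S, F.image σ ∈ S
  free : ∀ F ∈ S, ∀ v ∈ F, σ v ∉ F

/-- The graph of the complex: two distinct vertices are adjacent iff they lie in a common facet. -/
def graph (S : Finset (Finset V)) : SimpleGraph V where
  Adj u v := u ≠ v ∧ ∃ F ∈ S, u ∈ F ∧ v ∈ F
  symm := ⟨fun _ _ h => ⟨h.1.symm, by
    obtain ⟨F, hF, hu, hv⟩ := h.2
    exact ⟨F, hF, hv, hu⟩⟩⟩
  loopless := ⟨fun _ h => h.1 rfl⟩

/-- The boundary complex of the `(k+1)`-dimensional cross-polytope; the vertex `(i, b)` stands for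
`± e_i`. -/
def crossPolytope (k : ℕ) : Finset (Finset (Fin (k + 1) × Bool)) :=
  Finset.univ.image (fun f : Fin (k + 1) → Bool => Finset.univ.image (fun i => (i, f i)))

/-- `S` is isomorphic, as a simplicial complex, to the boundary of the cross-polytope. -/
def IsoCross (k : ℕ) (S : Finset (Finset V)) : Prop :=
  ∃ e : V ≃ Fin (k + 1) × Bool, S.image (fun F => F.image e) = crossPolytope k

/-- `G` is `c`-connected: it has more than `c` vertices and it stays connected after deleting any
set of fewer than `c` vertices. -/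
def IsKConnected (c : ℕ) (G : SimpleGraph V) : Prop :=
  c < Fintype.card V ∧ ∀ X : Finset V, X.card < c → (G.induce {v | v ∉ X}).Connected

end Complex

section Rigidity

variable {V : Type} {d : ℕ}

/-- Infinitesimal rigidity of the framework `(H, p)` in `ℝ^d`: every infinitesimal motion is of
the form `x ↦ A x + t` with `A` skew-symmetric. -/
def InfRigid (H : SimpleGraph V) (p : V → EuclideanSpace ℝ (Fin d)) : Prop :=
  ∀ q : V → EuclideanSpace ℝ (Fin d),
    (∀ u v, H.Adj u v → inner ℝ (p u - p v) (q u - q v) = 0) →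
    ∃ (A : EuclideanSpace ℝ (Fin d) →ₗ[ℝ] EuclideanSpace ℝ (Fin d))
      (t : EuclideanSpace ℝ (Fin d)),
      (∀ x y, inner ℝ (A x) y = - inner ℝ x (A y)) ∧ ∀ v, q v = A (p v) + t

/-- `τ` generates a point group of order two: a linear isometric involution different from the
identity. -/
def IsPointInvolution (τ : EuclideanSpace ℝ (Fin d) →ₗ[ℝ] EuclideanSpace ℝ (Fin d)) : Prop :=
  τ ≠ LinearMap.id ∧ (∀ x, τ (τ x) = x) ∧ ∀ x, ‖τ x‖ = ‖x‖

/-- `(H, σ)` is `{I, τ}`-rigid in `ℝ^d`: it has an infinitesimally rigid symmetric realisation. -/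
def GammaRigid (H : SimpleGraph V) (σ : V → V)
    (τ : EuclideanSpace ℝ (Fin d) →ₗ[ℝ] EuclideanSpace ℝ (Fin d)) : Prop :=
  ∃ p : V → EuclideanSpace ℝ (Fin d), (∀ v, p (σ v) = τ (p v)) ∧ InfRigid H p

end Rigidity

end Pool.Agent.Lib.MP_4fec65_co
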