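import Pool.Agent.Lib.MP_4fec65_co.Defs

set_option autoImplicit false
set_option linter.unusedSectionVars false

/-!
# The join of the `2n`-cycle and the boundary of the `m`-dimensional cross-polytope
-/

namespace Pool.Agent.Lib.MP_4fec65_co

open Finset

/-- vertices of the join -/
abbrev Vx (n m : ℕ) : Type := ZMod (2 * n) ⊕ (Fin m × Bool)

variable {n m : ℕ}

instance instNeZero2n [NeZero n] : NeZero (2 * n) := ⟨Nat.mul_ne_zero two_ne_zero (NeZero.ne n)⟩

variable [NeZero n]

/-- the facet spanned by the cycle edge `{i, i+1}` and the sign vector `f` -/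
def fac (i : ZMod (2 * n)) (f : Fin m → Bool) : Finset (Vx n m) :=
  ({i, i + 1} : Finset (ZMod (2 * n))).disjSum (Finset.univ.image (fun j => (j, f j)))

theorem inl_mem_fac (i a : ZMod (2 * n)) (f : Fin m → Bool) :
    (Sum.inl a : Vx n m) ∈ fac i f ↔ a = i ∨ a = i + 1 := by
  simp [fac]

theorem inr_mem_fac (i : ZMod (2 * n)) (f : Fin m → Bool) (j : Fin m) (b : Bool) :
    (Sum.inr (j, b) : Vx n m) ∈ fac i f ↔ f j = b := by
  simp [fac]

/-- the complex -/
def cplx (n m : ℕ) [NeZero n] : Finset (Finset (Vx n m)) :=
  Finset.univ.image (fun q : ZMod (2 * n) × (Fin m → Bool) => fac q.1 q.2)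

theorem mem_cplx (F : Finset (Vx n m)) : F ∈ cplx n m ↔ ∃ i f, F = fac i f := by
  unfold cplx
  simp only [Finset.mem_image, Finset.mem_univ, true_and, Prod.exists]
  constructor
  · rintro ⟨i, f, h⟩
    exact ⟨i, f, h.symm⟩
  · rintro ⟨i, f, h⟩
    exact ⟨i, f, h.symm⟩

theorem one_ne (hn : 2 ≤ n) : (1 : ZMod (2 * n)) ≠ 0 := by
  intro h
  have h1 : ((1 : ℕ) : ZMod (2 * n)) = 0 := by exact_mod_cast h
  rw [ZMod.natCast_eq_zero_iff] at h1
  have := Nat.le_of_dvd one_pos h1
  omega

theorem two_ne (hn : 2 ≤ n) : (2 : ZMod (2 * n)) ≠ 0 := by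
  intro h
  have h1 : ((2 : ℕ) : ZMod (2 * n)) = 0 := by exact_mod_cast h
  rw [ZMod.natCast_eq_zero_iff] at h1
  have := Nat.le_of_dvd two_pos h1
  omega

theorem card_fac (hn : 2 ≤ n) (i : ZMod (2 * n)) (f : Fin m → Bool) :
    (fac i f : Finset (Vx n m)).card = m + 2 := by
  unfold fac
  rw [Finset.card_disjSum, Finset.card_pair, Finset.card_image_of_injective, Finset.card_univ,
    Fintype.card_fin]
  · ring
  · intro a b h
    exact (Prod.ext_iff.1 h).1
  · intro h
    exact one_ne hn (by simpa using h)

theorem fac_inj (hn : 2 ≤ n) {i i' : ZMod (2 * n)} {f f' : Fin m → Bool}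
    (h : (fac i f : Finset (Vx n m)) = fac i' f') : i = i' ∧ f = f' := by
  constructor
  · have h1 : (Sum.inl i : Vx n m) ∈ fac i' f' := by
      rw [← h, inl_mem_fac]; exact Or.inl rfl
    have h2 : (Sum.inl (i + 1) : Vx n m) ∈ fac i' f' := by
      rw [← h, inl_mem_fac]; exact Or.inr rfl
    rw [inl_mem_fac] at h1 h2
    rcases h1 with h1 | h1
    · exact h1
    · rcases h2 with h2 | h2
      · exfalso
        apply two_ne hn
        have : i' + 1 + 1 = i' := by rw [← h1]; exact h2
        linear_combination this
      · exact add_right_cancel h2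
  · funext j
    have h1 : (Sum.inr (j, f j) : Vx n m) ∈ fac i' f' := by
      rw [← h, inr_mem_fac]
    rw [inr_mem_fac] at h1
    exact h1.symm


/-- the number of sign vectors compatible with `T` is even if `T` misses some coordinate -/
theorem even_card_signs (T : Finset (Vx n m)) (j₀ : Fin m)
    (h : ∀ b, (Sum.inr (j₀, b) : Vx n m) ∉ T) (i : ZMod (2 * n)) :
    Even (Finset.univ.filter (fun f : Fin m → Bool => T ⊆ fac i f)).card := by
  have key : ∀ f : Fin m → Bool, T ⊆ fac i f → T ⊆ fac i (Function.update f j₀ (!f j₀)) := by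
    intro f hf x hx
    have hx' := hf hx
    rcases x with a | ⟨j, b⟩
    · rw [inl_mem_fac] at hx' ⊢
      exact hx'
    · rw [inr_mem_fac] at hx' ⊢
      have hj : j ≠ j₀ := by
        rintro rfl
        exact h b hx
      rw [Function.update_of_ne hj]
      exact hx'
  have h2 : (∑ _f ∈ Finset.univ.filter (fun f : Fin m → Bool => T ⊆ fac i f), (1 : ZMod 2)) = 0 := by
    apply Finset.sum_involution (fun f _ => Function.update f j₀ (!f j₀))
    · intro f _
      decide
    · intro f _ _ hf
      have := congrFun hf j₀
      rw [Function.update_self] at this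
      cases hfj : f j₀ <;> rw [hfj] at this <;> simp at this
    · intro f _
      funext j
      by_cases hj : j = j₀
      · subst hj
        simp
      · simp [Function.update_of_ne hj]
    · intro f hf
      rw [Finset.mem_filter] at hf ⊢
      exact ⟨Finset.mem_univ _, key f hf.2⟩
  rw [Finset.sum_const, nsmul_eq_mul, mul_one] at h2
  rw [ZMod.natCast_eq_zero_iff] at h2
  exact even_iff_two_dvd.2 h2

theorem filter_cplx_card (hn : 2 ≤ n) (T : Finset (Vx n m)) :
    ((cplx n m).filter (fun F => T ⊆ F)).card =
      ∑ i : ZMod (2 * n), (Finset.univ.filter (fun f : Fin m → Bool => T ⊆ fac i f)).card := by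
  classical
  have h1 : (cplx n m).filter (fun F => T ⊆ F) =
      (Finset.univ.filter (fun q : ZMod (2 * n) × (Fin m → Bool) => T ⊆ fac q.1 q.2)).image
        (fun q => fac q.1 q.2) := by
    ext F
    simp only [Finset.mem_filter, mem_cplx, Finset.mem_image, Finset.mem_univ, true_and,
      Prod.exists]
    constructor
    · rintro ⟨⟨i, f, rfl⟩, h⟩
      exact ⟨i, f, h, rfl⟩
    · rintro ⟨i, f, h, rfl⟩
      exact ⟨⟨i, f, rfl⟩, h⟩
  rw [h1, Finset.card_image_of_injective]
  · rw [Finset.card_filter, ← Finset.univ_product_univ, Finset.sum_product]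
    apply Finset.sum_congr rfl
    intro i _
    rw [Finset.card_filter]
  · rintro ⟨i, f⟩ ⟨i', f'⟩ h
    obtain ⟨h1, h2⟩ := fac_inj hn h
    exact Prod.ext h1 h2

theorem boundary_cplx (hn : 2 ≤ n) : boundary (m + 1) (cplx n m) = ∅ := by
  classical
  unfold boundary
  rw [Finset.filter_eq_empty_iff]
  intro T hT
  rw [Finset.mem_powersetCard] at hT
  rw [Nat.not_odd_iff_even]
  by_cases h0 : ((cplx n m).filter (fun F => T ⊆ F)) = ∅
  · rw [h0]; simp
  by_cases hj : ∃ j₀ : Fin m, ∀ b, (Sum.inr (j₀, b) : Vx n m) ∉ T
  · obtain ⟨j₀, hj₀⟩ := hj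
    rw [filter_cplx_card hn]
    exact Finset.even_sum _ (fun i _ => even_card_signs T j₀ hj₀ i)
  · push Not at hj
    obtain ⟨F, hF⟩ := Finset.nonempty_iff_ne_empty.2 h0
    rw [Finset.mem_filter, mem_cplx] at hF
    obtain ⟨⟨i, f, rfl⟩, hTF⟩ := hF
    -- all the sign coordinates of `T` are given by `f`
    have hf : ∀ j, (Sum.inr (j, f j) : Vx n m) ∈ T := by
      intro j
      obtain ⟨b, hb⟩ := hj j
      have := hTF hb
      rw [inr_mem_fac] at this
      rw [this]
      exact hb
    -- the cycle part of `T` is a single vertex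
    have hone : ∃ c : ZMod (2 * n), T = ({c} : Finset (ZMod (2 * n))).disjSum
        (Finset.univ.image (fun j => (j, f j))) := by
      have hT2 : T = (T.toLeft).disjSum (T.toRight) := (Finset.toLeft_disjSum_toRight).symm
      have hR : T.toRight = Finset.univ.image (fun j => (j, f j)) := by
        ext ⟨j, b⟩
        simp only [Finset.mem_toRight, Finset.mem_image, Finset.mem_univ, true_and, Prod.mk.injEq]
        constructor
        · intro h
          have := hTF h
          rw [inr_mem_fac] at this
          exact ⟨j, rfl, this⟩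
        · rintro ⟨j', rfl, rfl⟩
          exact hf j'
      have hcR : T.toRight.card = m := by
        rw [hR, Finset.card_image_of_injective, Finset.card_univ, Fintype.card_fin]
        intro a b h
        exact (Prod.ext_iff.1 h).1
      have hcL : T.toLeft.card = 1 := by
        have := Finset.card_toLeft_add_card_toRight (u := T)
        rw [hcR, hT.2] at this
        omega
      rw [Finset.card_eq_one] at hcL
      obtain ⟨c, hc⟩ := hcL
      exact ⟨c, by rw [← hc, ← hR]; exact hT2⟩
    obtain ⟨c, hc⟩ := hone
    have hset : (cplx n m).filter (fun F => T ⊆ F) = {fac (c - 1) f, fac c f} := by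
      ext F
      simp only [Finset.mem_filter, mem_cplx, Finset.mem_insert, Finset.mem_singleton]
      constructor
      · rintro ⟨⟨i', f', rfl⟩, h⟩
        have h1 : (Sum.inl c : Vx n m) ∈ fac i' f' := by
          apply h
          rw [hc]
          simp
        rw [inl_mem_fac] at h1
        have h2 : f' = f := by
          funext j
          have := h (hf j)
          rw [inr_mem_fac] at this
          exact this
        rw [h2]
        rcases h1 with h1 | h1
        · right; rw [h1]
        · left; rw [h1]; congr 1; ring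
      · rintro (rfl | rfl)
        · refine ⟨⟨_, _, rfl⟩, ?_⟩
          rw [hc]
          intro x hx
          rcases x with a | ⟨j, b⟩
          · simp at hx
            rw [inl_mem_fac, hx]
            right; ring
          · simp at hx
            rw [inr_mem_fac]
            exact hx
        · refine ⟨⟨_, _, rfl⟩, ?_⟩
          rw [hc]
          intro x hx
          rcases x with a | ⟨j, b⟩
          · simp at hx
            rw [inl_mem_fac, hx]
            left; rfl
          · simp at hx
            rw [inr_mem_fac]
            exact hx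
    rw [hset, Finset.card_pair]
    · exact even_two
    · intro h
      have := (fac_inj hn h).1
      apply one_ne hn
      linear_combination -this


/-- changing a sign vector one coordinate at a time -/
theorem signs_induction (P : (Fin m → Bool) → Prop)
    (hstep : ∀ f j, P f → P (Function.update f j (!f j))) {f : Fin m → Bool} (hf : P f)
    (g : Fin m → Bool) : P g := by
  classical
  have key : ∀ (c : ℕ) (f : Fin m → Bool), P f →
      (Finset.univ.filter (fun j => f j ≠ g j)).card = c → P g := by
    intro c
    induction c with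
    | zero =>
      intro f hf hc
      rw [Finset.card_eq_zero, Finset.filter_eq_empty_iff] at hc
      have : f = g := by
        funext j
        have := hc (Finset.mem_univ j)
        simpa using this
      rw [← this]; exact hf
    | succ c ih =>
      intro f hf hc
      have hne : (Finset.univ.filter (fun j => f j ≠ g j)).Nonempty := by
        rw [← Finset.card_pos]; omega
      obtain ⟨j, hj⟩ := hne
      apply ih _ (hstep f j hf)
      have : Finset.univ.filter (fun i => Function.update f j (!f j) i ≠ g i) =
          (Finset.univ.filter (fun j => f j ≠ g j)).erase j := by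
        ext i
        simp only [Finset.mem_filter, Finset.mem_univ, true_and, Finset.mem_erase]
        simp only [Finset.mem_filter, Finset.mem_univ, true_and] at hj
        by_cases hij : i = j
        · subst hij
          rw [Function.update_self]
          cases h1 : f i <;> cases h2 : g i <;> simp_all
        · rw [Function.update_of_ne hij]
          simp [hij]
      rw [this, Finset.card_erase_of_mem hj, hc]
      rfl
  exact key _ f hf rfl

/-- if `R` is a `k`-set, `T` is a set of facets with empty boundary, and the facets of the complex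
which contain `R` are `A` and `B`, then `A ∈ T` implies `B ∈ T` -/
theorem ridge_step {V : Type} [Fintype V] [DecidableEq V] {k : ℕ} {S T : Finset (Finset V)}
    (hTS : T ⊆ S) (hT : boundary k T = ∅) {R A B : Finset V} (hR : R.card = k) (hRA : R ⊆ A)
    (h : ∀ F ∈ S, R ⊆ F → F = A ∨ F = B) (hA : A ∈ T) : B ∈ T := by
  by_contra hB
  have h1 : T.filter (fun F => R ⊆ F) = {A} := by
    ext F
    simp only [Finset.mem_filter, Finset.mem_singleton]
    constructor
    · rintro ⟨h1, h2⟩
      rcases h F (hTS h1) h2 with h3 | h3
      · exact h3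
      · rw [h3] at h1; exact absurd h1 hB
    · rintro rfl
      exact ⟨hA, hRA⟩
  have h2 : R ∈ boundary k T := by
    unfold boundary
    rw [Finset.mem_filter, Finset.mem_powersetCard]
    refine ⟨⟨Finset.subset_univ _, hR⟩, ?_⟩
    rw [h1, Finset.card_singleton]
    exact odd_one
  rw [hT] at h2
  exact absurd h2 (Finset.notMem_empty _)

theorem step_cycle {T : Finset (Finset (Vx n m))} (hTS : T ⊆ cplx n m)
    (hT : boundary (m + 1) T = ∅) (i : ZMod (2 * n)) (f : Fin m → Bool) (h : fac i f ∈ T) :
    fac (i + 1) f ∈ T := by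
  apply ridge_step hTS hT (R := ({i + 1} : Finset (ZMod (2 * n))).disjSum
        (Finset.univ.image (fun j => (j, f j)))) ?_ ?_ ?_ h
  · rw [Finset.card_disjSum, Finset.card_singleton, Finset.card_image_of_injective,
      Finset.card_univ, Fintype.card_fin, add_comm]
    intro a b h
    exact (Prod.ext_iff.1 h).1
  · intro x hx
    rcases x with a | ⟨j, b⟩
    · simp at hx
      rw [inl_mem_fac, hx]
      right; rfl
    · simp at hx
      rw [inr_mem_fac]
      exact hx
  · intro F hF hR
    rw [mem_cplx] at hF
    obtain ⟨i', f', rfl⟩ := hF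
    have h1 : (Sum.inl (i + 1) : Vx n m) ∈ fac i' f' := by
      apply hR
      simp
    rw [inl_mem_fac] at h1
    have h2 : f' = f := by
      funext j
      have : (Sum.inr (j, f j) : Vx n m) ∈ fac i' f' := by
        apply hR
        simp
      rw [inr_mem_fac] at this
      exact this
    rw [h2]
    rcases h1 with h1 | h1
    · right; rw [h1]
    · left
      have := add_right_cancel h1
      rw [this]

theorem step_sign (hn : 2 ≤ n) {T : Finset (Finset (Vx n m))} (hTS : T ⊆ cplx n m)
    (hT : boundary (m + 1) T = ∅) (i : ZMod (2 * n)) (f : Fin m → Bool) (j : Fin m)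
    (h : fac i f ∈ T) : fac i (Function.update f j (!f j)) ∈ T := by
  apply ridge_step hTS hT (R := (fac i f).erase (Sum.inr (j, f j))) ?_ ?_ ?_ h
  · rw [Finset.card_erase_of_mem, card_fac hn]
    · rfl
    · rw [inr_mem_fac]
  · exact Finset.erase_subset _ _
  · intro F hF hR
    rw [mem_cplx] at hF
    obtain ⟨i', f', rfl⟩ := hF
    have h1 : ∀ a, (Sum.inl a : Vx n m) ∈ fac i f → (Sum.inl a : Vx n m) ∈ fac i' f' := by
      intro a ha
      apply hR
      rw [Finset.mem_erase]
      exact ⟨by simp, ha⟩
    have h2 : ∀ j', j' ≠ j → f' j' = f j' := by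
      intro j' hj'
      have : (Sum.inr (j', f j') : Vx n m) ∈ fac i' f' := by
        apply hR
        rw [Finset.mem_erase]
        refine ⟨?_, by rw [inr_mem_fac]⟩
        intro h
        apply hj'
        have := Sum.inr.inj h
        exact (Prod.ext_iff.1 this).1
      rw [inr_mem_fac] at this
      exact this
    have hi : i = i' := by
      have h3 := h1 i (by rw [inl_mem_fac]; left; rfl)
      have h4 := h1 (i + 1) (by rw [inl_mem_fac]; right; rfl)
      rw [inl_mem_fac] at h3 h4
      rcases h3 with h3 | h3
      · exact h3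
      · rcases h4 with h4 | h4
        · exfalso
          apply two_ne hn
          linear_combination h4 - h3
        · exact add_right_cancel h4
    rw [← hi]
    by_cases hb : f' j = f j
    · left
      congr 1
      funext j'
      by_cases hj' : j' = j
      · rw [hj']; exact hb
      · exact h2 j' hj'
    · right
      congr 1
      funext j'
      by_cases hj' : j' = j
      · rw [hj', Function.update_self]
        cases h5 : f' j <;> cases h6 : f j <;> simp_all
      · rw [Function.update_of_ne hj']
        exact h2 j' hj'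

theorem isCircuit_cplx (hn : 2 ≤ n) : IsCircuit (m + 1) (cplx n m) where
  nonempty := ⟨fac 0 (fun _ => true), by rw [mem_cplx]; exact ⟨_, _, rfl⟩⟩
  card_facet := by
    intro F hF
    rw [mem_cplx] at hF
    obtain ⟨i, f, rfl⟩ := hF
    exact card_fac hn i f
  spans := by
    intro v
    rcases v with a | ⟨j, b⟩
    · exact ⟨fac a (fun _ => true), by rw [mem_cplx]; exact ⟨_, _, rfl⟩, by
        rw [inl_mem_fac]; left; rfl⟩
    · exact ⟨fac 0 (fun _ => b), by rw [mem_cplx]; exact ⟨_, _, rfl⟩, by rw [inr_mem_fac]⟩
  boundary_eq := boundary_cplx hn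
  minimal := by
    intro T hT hne hb
    apply hT.2
    obtain ⟨F, hF⟩ := hne
    have hFS := hT.1 hF
    rw [mem_cplx] at hFS
    obtain ⟨i, f, rfl⟩ := hFS
    -- reach every `i'`
    have hcyc : ∀ (t : ℕ) (f' : Fin m → Bool), fac i f' ∈ T →
        fac (i + (t : ZMod (2 * n))) f' ∈ T := by
      intro t f' h
      induction t with
      | zero => simpa using h
      | succ t ih =>
        have := step_cycle hT.1 hb _ f' ih
        rw [Nat.cast_succ, ← add_assoc]
        exact this
    have hsig : ∀ g : Fin m → Bool, fac i g ∈ T := by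
      intro g
      exact signs_induction (fun g => fac i g ∈ T)
        (fun f' j h => step_sign hn hT.1 hb i f' j h) hF g
    intro G hG
    rw [mem_cplx] at hG
    obtain ⟨i', g, rfl⟩ := hG
    have := hcyc (i' - i).val g (hsig g)
    rw [ZMod.natCast_zmod_val] at this
    rw [add_sub_cancel] at this
    exact this


/-- the antipodal involution -/
def inv (n m : ℕ) (v : Vx n m) : Vx n m :=
  match v with
  | Sum.inl a => Sum.inl (a + (n : ZMod (2 * n)))
  | Sum.inr (j, b) => Sum.inr (j, !b)

theorem n_add_n : (n : ZMod (2 * n)) + (n : ZMod (2 * n)) = 0 := by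
  rw [← Nat.cast_add, ← two_mul]
  exact ZMod.natCast_self _

theorem n_ne (hn : 2 ≤ n) : (n : ZMod (2 * n)) ≠ 0 := by
  intro h
  rw [ZMod.natCast_eq_zero_iff] at h
  have := Nat.le_of_dvd (by omega) h
  omega

theorem n_ne_one (hn : 2 ≤ n) : (n : ZMod (2 * n)) ≠ 1 := by
  intro h
  have h1 : ((n - 1 : ℕ) : ZMod (2 * n)) = 0 := by
    rw [Nat.cast_sub (by omega), h]; simp
  rw [ZMod.natCast_eq_zero_iff] at h1
  have := Nat.le_of_dvd (by omega) h1
  omega

theorem n_ne_neg_one (hn : 2 ≤ n) : (n : ZMod (2 * n)) ≠ -1 := by
  intro h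
  have h1 : ((n + 1 : ℕ) : ZMod (2 * n)) = 0 := by
    rw [Nat.cast_add, h]; simp
  rw [ZMod.natCast_eq_zero_iff] at h1
  have := Nat.le_of_dvd (by omega) h1
  omega

theorem isFreeInvolution_inv (hn : 2 ≤ n) : IsFreeInvolution (cplx n m) (inv n m) where
  involutive := by
    intro v
    rcases v with a | ⟨j, b⟩
    · simp only [inv]
      rw [add_assoc, n_add_n, add_zero]
    · simp [inv]
  maps := by
    intro F hF
    rw [mem_cplx] at hF ⊢
    obtain ⟨i, f, rfl⟩ := hF
    refine ⟨i + n, fun j => !f j, ?_⟩
    ext x
    rw [Finset.mem_image]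
    rcases x with a | ⟨j, b⟩
    · rw [inl_mem_fac]
      constructor
      · rintro ⟨y, hy, hyx⟩
        rcases y with a' | ⟨j', b'⟩
        · rw [inl_mem_fac] at hy
          simp only [inv] at hyx
          have := Sum.inl.inj hyx
          rw [← this]
          rcases hy with hy | hy
          · left; rw [hy]
          · right; rw [hy]; ring
        · simp [inv] at hyx
      · intro h
        refine ⟨Sum.inl (a + n), ?_, ?_⟩
        · rw [inl_mem_fac]
          rcases h with h | h
          · left; rw [h, add_assoc, n_add_n, add_zero]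
          · right; rw [h]; linear_combination (n_add_n (n := n))
        · simp only [inv]
          rw [add_assoc, n_add_n, add_zero]
    · rw [inr_mem_fac]
      constructor
      · rintro ⟨y, hy, hyx⟩
        rcases y with a' | ⟨j', b'⟩
        · simp [inv] at hyx
        · rw [inr_mem_fac] at hy
          simp only [inv] at hyx
          have := Sum.inr.inj hyx
          rw [Prod.mk.injEq] at this
          obtain ⟨h1, h2⟩ := this
          rw [← h1, ← h2, hy]
      · intro h
        refine ⟨Sum.inr (j, f j), ?_, ?_⟩
        · rw [inr_mem_fac]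
        · simp only [inv]
          rw [h]
  free := by
    intro F hF v hv
    rw [mem_cplx] at hF
    obtain ⟨i, f, rfl⟩ := hF
    rcases v with a | ⟨j, b⟩
    · simp only [inv]
      rw [inl_mem_fac] at hv ⊢
      intro h
      rcases hv with hv | hv <;> rcases h with h | h
      · apply n_ne hn
        linear_combination h - hv
      · apply n_ne_one hn
        linear_combination h - hv
      · apply n_ne_neg_one hn
        linear_combination h - hv
      · apply n_ne hn
        linear_combination h - hv
    · simp only [inv]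
      rw [inr_mem_fac] at hv ⊢
      rw [hv]
      cases b <;> simp

theorem card_Vx : Fintype.card (Vx n m) = 2 * n + 2 * m := by
  rw [Fintype.card_sum, ZMod.card, Fintype.card_prod, Fintype.card_fin, Fintype.card_bool]
  ring

theorem not_isoCross (hn : n ≠ 2) : ¬ IsoCross (m + 1) (cplx n m) := by
  rintro ⟨e, _⟩
  have := Fintype.card_congr e
  rw [card_Vx, Fintype.card_prod, Fintype.card_fin, Fintype.card_bool] at this
  omega

/-! ### adjacency -/

theorem adj_inl_inl (a b : ZMod (2 * n)) :
    (graph (cplx n m)).Adj (Sum.inl a) (Sum.inl b) ↔ a ≠ b ∧ (b = a + 1 ∨ a = b + 1) := by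
  constructor
  · rintro ⟨h, F, hF, ha, hb⟩
    rw [mem_cplx] at hF
    obtain ⟨i, f, rfl⟩ := hF
    rw [inl_mem_fac] at ha hb
    have hab : a ≠ b := fun h' => h (by rw [h'])
    refine ⟨hab, ?_⟩
    rcases ha with ha | ha <;> rcases hb with hb | hb
    · exact absurd (ha.trans hb.symm) hab
    · left; rw [hb, ha]
    · right; rw [hb, ha]
    · exact absurd (ha.trans hb.symm) hab
  · rintro ⟨h, h'⟩
    refine ⟨fun h'' => h (Sum.inl.inj h''), ?_⟩
    rcases h' with h' | h'
    · exact ⟨fac a (fun _ => true), by rw [mem_cplx]; exact ⟨_, _, rfl⟩, by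
        rw [inl_mem_fac]; left; rfl, by rw [inl_mem_fac]; right; exact h'⟩
    · exact ⟨fac b (fun _ => true), by rw [mem_cplx]; exact ⟨_, _, rfl⟩, by
        rw [inl_mem_fac]; right; exact h', by rw [inl_mem_fac]; left; rfl⟩

theorem adj_inl_inr (a : ZMod (2 * n)) (x : Fin m × Bool) :
    (graph (cplx n m)).Adj (Sum.inl a) (Sum.inr x) :=
  ⟨by simp, fac a (fun _ => x.2), by rw [mem_cplx]; exact ⟨_, _, rfl⟩, by
    rw [inl_mem_fac]; left; rfl, by
    obtain ⟨j, b⟩ := x
    rw [inr_mem_fac]⟩

theorem adj_inr_inr (x y : Fin m × Bool) (h : x.1 ≠ y.1) :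
    (graph (cplx n m)).Adj (Sum.inr x) (Sum.inr y) := by
  obtain ⟨j, b⟩ := x
  obtain ⟨j', b'⟩ := y
  refine ⟨fun h' => h (congrArg Prod.fst (Sum.inr.inj h')),
    fac 0 (fun i => if i = j then b else b'), by rw [mem_cplx]; exact ⟨_, _, rfl⟩, ?_, ?_⟩
  · rw [inr_mem_fac]
    simp
  · rw [inr_mem_fac]
    have : ¬ (j' = j) := fun h' => h h'.symm
    simp [this]

end Pool.Agent.Lib.MP_4fec65_co
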