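import Pool.Agent.Lib.MP_4fec65_co.Conn

set_option autoImplicit false
set_option linter.unusedSectionVars false

/-!
# A nontrivial infinitesimal motion after deleting an antipodal pair of cycle edges
-/

namespace Pool.Agent.Lib.MP_4fec65_co

open Finset

/-- fewer than `d` vectors in `ℝ^d` have a common nonzero orthogonal vector -/
theorem exists_orthogonal {d : ℕ} {ι : Type} [Fintype ι] (w : ι → EuclideanSpace ℝ (Fin d))
    (h : Fintype.card ι < d) : ∃ x : EuclideanSpace ℝ (Fin d), x ≠ 0 ∧ ∀ i, inner ℝ (w i) x = 0 := by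
  let L : EuclideanSpace ℝ (Fin d) →ₗ[ℝ] (ι → ℝ) := LinearMap.pi (fun i => (innerₛₗ ℝ (w i)))
  have hL : LinearMap.ker L ≠ ⊥ := by
    apply LinearMap.ker_ne_bot_of_finrank_lt
    rw [Module.finrank_fintype_fun_eq_card, finrank_euclideanSpace_fin]
    exact h
  obtain ⟨x, hx, hx0⟩ := Submodule.exists_mem_ne_zero_of_ne_bot hL
  refine ⟨x, hx0, fun i => ?_⟩
  rw [LinearMap.mem_ker] at hx
  have := congrFun hx i
  simpa [L] using this

variable {n m : ℕ} [NeZero n]

theorem val_add_one (hn : 2 ≤ n) (a : ZMod (2 * n)) (h : a.val + 1 < 2 * n) :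
    (a + 1).val = a.val + 1 := by
  have : Fact (1 < 2 * n) := ⟨by omega⟩
  rw [ZMod.val_add, ZMod.val_one]
  exact Nat.mod_eq_of_lt h

theorem not_infRigid (hn : 2 ≤ n) (hm : 1 ≤ m)
    (p : Vx n m → EuclideanSpace ℝ (Fin (m + 1 + 1))) (hp : ∀ v, p (inv n m v) = - p v) :
    ¬ InfRigid ((graph (cplx n m)).deleteEdges
      {s(Sum.inl (-1), Sum.inl 0), s(inv n m (Sum.inl (-1)), inv n m (Sum.inl 0))}) p := by
  classical
  intro hrig
  -- normals
  have hN : ∀ j : ℕ, ∃ x : EuclideanSpace ℝ (Fin (m + 1 + 1)), x ≠ 0 ∧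
      inner ℝ (p (Sum.inl (j : ZMod (2 * n)))) x = 0 ∧
      ∀ l : Fin m, inner ℝ (p (Sum.inr (l, true))) x = 0 := by
    intro j
    obtain ⟨x, hx0, hx⟩ := exists_orthogonal (d := m + 1 + 1) (ι := Option (Fin m))
      (fun o => match o with
        | none => p (Sum.inl (j : ZMod (2 * n)))
        | some l => p (Sum.inr (l, true))) (by
          rw [Fintype.card_option, Fintype.card_fin]; omega)
    exact ⟨x, hx0, hx none, fun l => hx (some l)⟩
  choose N hN0 hNc hNb using hN
  set c : ℕ → EuclideanSpace ℝ (Fin (m + 1 + 1)) := fun j => p (Sum.inl (j : ZMod (2 * n)))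
    with hc
  -- the coefficients
  let L : (Fin n → ℝ) →ₗ[ℝ] (Fin (n - 1) → ℝ) := LinearMap.pi (fun j =>
    (inner ℝ (c j - c (j + 1)) (N j)) • (LinearMap.proj (⟨j, by omega⟩ : Fin n)) -
    (inner ℝ (c j - c (j + 1)) (N (j + 1))) • (LinearMap.proj (⟨j + 1, by omega⟩ : Fin n)))
  have hL : LinearMap.ker L ≠ ⊥ := by
    apply LinearMap.ker_ne_bot_of_finrank_lt
    rw [Module.finrank_fintype_fun_eq_card, Module.finrank_fintype_fun_eq_card, Fintype.card_fin,
      Fintype.card_fin]
    omega
  obtain ⟨lam, hlam, hlam0⟩ := Submodule.exists_mem_ne_zero_of_ne_bot hL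
  rw [LinearMap.mem_ker] at hlam
  let lm : ℕ → ℝ := fun j => if h : j < n then lam ⟨j, h⟩ else 0
  have hlm : ∀ j : ℕ, j + 1 < n →
      inner ℝ (c j - c (j + 1)) (lm j • N j - lm (j + 1) • N (j + 1)) = 0 := by
    intro j hj
    have := congrFun hlam ⟨j, by omega⟩
    simp only [L, LinearMap.pi_apply, LinearMap.sub_apply, LinearMap.smul_apply,
      LinearMap.proj_apply, smul_eq_mul, Pi.zero_apply] at this
    rw [inner_sub_right, inner_smul_right, inner_smul_right]
    simp only [lm, dif_pos hj, dif_pos (show j < n by omega)]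
    linarith
  -- the motion
  let q : Vx n m → EuclideanSpace ℝ (Fin (m + 1 + 1)) := fun v => match v with
    | Sum.inl a => lm (a.val % n) • N (a.val % n)
    | Sum.inr _ => 0
  have hnpos : 0 < n := by omega
  -- position of a cycle vertex
  have hpos : ∀ a : ZMod (2 * n), (a.val < n ∧ a.val % n = a.val ∧ p (Sum.inl a) = c (a.val % n)) ∨
      (n ≤ a.val ∧ a.val % n = a.val - n ∧ p (Sum.inl a) = - c (a.val % n)) := by
    intro a
    have hlt : a.val < 2 * n := ZMod.val_lt a
    by_cases h : a.val < n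
    · left
      have h1 : a.val % n = a.val := Nat.mod_eq_of_lt h
      refine ⟨h, h1, ?_⟩
      rw [h1, hc]
      simp only
      rw [ZMod.natCast_zmod_val]
    · right
      push Not at h
      have h1 : a.val % n = a.val - n := by
        rw [Nat.mod_eq_sub_mod h]
        exact Nat.mod_eq_of_lt (by omega)
      refine ⟨h, h1, ?_⟩
      rw [h1, hc]
      simp only
      rw [← hp]
      congr 1
      simp only [inv]
      congr 1
      rw [Nat.cast_sub h, ZMod.natCast_zmod_val]
      ring
  have horth : ∀ a : ZMod (2 * n), inner ℝ (p (Sum.inl a)) (q (Sum.inl a)) = 0 := by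
    intro a
    simp only [q]
    rw [inner_smul_right]
    rcases hpos a with ⟨_, _, h⟩ | ⟨_, _, h⟩
    · rw [h]
      have : inner ℝ (c (a.val % n)) (N (a.val % n)) = (0 : ℝ) := hNc _
      rw [this, mul_zero]
    · rw [h, inner_neg_left]
      have : inner ℝ (c (a.val % n)) (N (a.val % n)) = (0 : ℝ) := hNc _
      rw [this, neg_zero, mul_zero]
  have horthb : ∀ (a : ZMod (2 * n)) (x : Fin m × Bool),
      inner ℝ (p (Sum.inr x)) (q (Sum.inl a)) = 0 := by
    rintro a ⟨l, b⟩
    simp only [q]
    rw [inner_smul_right]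
    cases b
    · have h1 : p (Sum.inr (l, false)) = - p (Sum.inr (l, true)) := by
        rw [← hp]; rfl
      rw [h1, inner_neg_left, hNb, neg_zero, mul_zero]
    · rw [hNb, mul_zero]
  have hstep : ∀ a : ZMod (2 * n), a.val ≠ 2 * n - 1 → a.val ≠ n - 1 →
      inner ℝ (p (Sum.inl a) - p (Sum.inl (a + 1))) (q (Sum.inl a) - q (Sum.inl (a + 1))) = 0 := by
    intro a h1 h2
    have hlt : a.val < 2 * n := ZMod.val_lt a
    have hv := val_add_one hn a (by omega)
    simp only [q]
    rcases hpos a with ⟨h3, h4, h5⟩ | ⟨h3, h4, h5⟩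
    · rcases hpos (a + 1) with ⟨h6, h7, h8⟩ | ⟨h6, h7, h8⟩
      · rw [h5, h8, h4, h7, hv]
        exact hlm _ (by omega)
      · exfalso; omega
    · rcases hpos (a + 1) with ⟨h6, h7, h8⟩ | ⟨h6, h7, h8⟩
      · exfalso; omega
      · have h9 : (a + 1).val % n = a.val - n + 1 := by omega
        rw [h5, h8, h4, h9]
        have := hlm (a.val - n) (by omega)
        have h10 : - c (a.val - n) - - c (a.val - n + 1) =
            - (c (a.val - n) - c (a.val - n + 1)) := by abel
        rw [h10, inner_neg_left, this, neg_zero]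
  -- exceptional edges
  have hexc : ∀ a : ZMod (2 * n), (a.val = 2 * n - 1 ∨ a.val = n - 1) →
      s((Sum.inl a : Vx n m), Sum.inl (a + 1)) ∈ ({s(Sum.inl (-1), Sum.inl 0),
        s(inv n m (Sum.inl (-1)), inv n m (Sum.inl 0))} : Set (Sym2 (Vx n m))) := by
    intro a h
    rcases h with h | h
    · left
      have : a = -1 := by
        have h1 : ((a.val : ℕ) : ZMod (2 * n)) = a := ZMod.natCast_zmod_val a
        rw [← h1, h, Nat.cast_sub (by omega), ZMod.natCast_self]
        simp
      rw [this]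
      simp
    · right
      have : a = n - 1 := by
        have h1 : ((a.val : ℕ) : ZMod (2 * n)) = a := ZMod.natCast_zmod_val a
        rw [← h1, h, Nat.cast_sub (by omega)]
        simp
      rw [this]
      simp only [inv, Set.mem_singleton_iff]
      congr 2 <;> ring_nf
  obtain ⟨A, t, _, hAt⟩ := hrig q (by
    intro u v huv
    rw [SimpleGraph.deleteEdges_adj] at huv
    obtain ⟨huv, hne⟩ := huv
    rcases u with a | x <;> rcases v with b | y
    · rw [adj_inl_inl] at huv
      obtain ⟨_, h⟩ := huv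
      rcases h with h | h
      · subst h
        apply hstep
        · intro h1; exact hne (hexc a (Or.inl h1))
        · intro h1; exact hne (hexc a (Or.inr h1))
      · subst h
        have hsw : s((Sum.inl (b + 1) : Vx n m), Sum.inl b) = s(Sum.inl b, Sum.inl (b + 1)) :=
          Sym2.eq_swap
        rw [hsw] at hne
        have h2 := hstep b (fun h1 => hne (hexc b (Or.inl h1)))
          (fun h1 => hne (hexc b (Or.inr h1)))
        rw [← inner_neg_neg, neg_sub, neg_sub]
        exact h2
    · have h0 : q (Sum.inr y) = 0 := rfl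
      rw [h0, sub_zero, inner_sub_left, horth, horthb, sub_zero]
    · have h0 : q (Sum.inr x) = 0 := rfl
      rw [h0, zero_sub, inner_neg_right, inner_sub_left, horth, horthb, sub_zero, neg_zero]
    · have h0 : q (Sum.inr x) = 0 := rfl
      have h1 : q (Sum.inr y) = 0 := rfl
      simp [h0, h1])
  -- conclude
  have ht : t = 0 := by
    have h1 := hAt (Sum.inr (⟨0, by omega⟩, true))
    have h2 := hAt (inv n m (Sum.inr (⟨0, by omega⟩, true)))
    rw [hp, map_neg] at h2
    have h3 : q (inv n m (Sum.inr (⟨0, by omega⟩, true))) = 0 := rfl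
    have h4 : q (Sum.inr (⟨0, by omega⟩, true)) = 0 := rfl
    rw [h3] at h2
    rw [h4] at h1
    have h5 : (2 : ℝ) • t = 0 := by
      rw [two_smul]
      calc t + t = (A (p (Sum.inr (⟨0, by omega⟩, true))) + t)
            + (-A (p (Sum.inr (⟨0, by omega⟩, true))) + t) := by abel
        _ = 0 := by rw [← h1, ← h2, add_zero]
    exact (smul_eq_zero.1 h5).resolve_left two_ne_zero
  have hq0 : ∀ a : ZMod (2 * n), q (Sum.inl a) = 0 := by
    intro a
    have h1 := hAt (Sum.inl a)
    have h2 := hAt (inv n m (Sum.inl a))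
    rw [hp, map_neg] at h2
    have h3 : q (inv n m (Sum.inl a)) = q (Sum.inl a) := by
      simp only [q, inv]
      have h4 : (a + (n : ZMod (2 * n))).val % n = a.val % n := by
        rw [ZMod.val_add]
        have h5 : ((n : ℕ) : ZMod (2 * n)).val = n := by
          rw [ZMod.val_natCast]
          exact Nat.mod_eq_of_lt (by omega)
        rw [h5, Nat.mod_mod_of_dvd _ (Dvd.intro_left 2 rfl)]
        simp
      rw [h4]
    rw [h3] at h2
    rw [ht, add_zero] at h1 h2
    have h6 : q (Sum.inl a) = - q (Sum.inl a) := by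
      nth_rewrite 1 [h2]
      rw [← h1]
    have h5 : (2 : ℝ) • q (Sum.inl a) = 0 := by
      rw [two_smul]
      nth_rewrite 2 [h6]
      exact add_neg_cancel _
    exact (smul_eq_zero.1 h5).resolve_left two_ne_zero
  apply hlam0
  funext j
  have h1 := hq0 (j : ℕ)
  have h2 : ((j : ℕ) : ZMod (2 * n)).val % n = j := by
    rw [ZMod.val_natCast, Nat.mod_mod_of_dvd _ (Dvd.intro_left 2 rfl)]
    exact Nat.mod_eq_of_lt j.2
  simp only [q] at h1
  rw [h2] at h1
  have h3 := (smul_eq_zero.1 h1).resolve_right (hN0 _)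
  simp only [lm, dif_pos j.2] at h3
  exact h3

end Pool.Agent.Lib.MP_4fec65_co
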